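import Pool.Agent.Lib.MP_94cd9d_al.K.Hits

/-!
Contraction of products of Virasoro generators against pairs of adjoint actions.
-/

set_option autoImplicit false
set_option linter.unusedSectionVars false

open MvPolynomial

namespace Pool.Agent.Lib.VirSimpleK

variable {𝕜 : Type*} [Field 𝕜] [CharZero 𝕜] {U : Type*} [Ring U] [Algebra 𝕜 U]

/-- The block of indices of `i`. -/
def pair (i : ℕ) : Finset ℕ := {2 * i, 2 * i + 1}

/-- The union of the blocks of the elements of `I`. -/
def pr (I : Finset ℕ) : Finset ℕ := I.biUnion pair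

lemma mem_pair {i x : ℕ} : x ∈ pair i ↔ x / 2 = i := by
  simp only [pair, Finset.mem_insert, Finset.mem_singleton]; omega

lemma mem_pr {I : Finset ℕ} {x : ℕ} : x ∈ pr I ↔ x / 2 ∈ I := by
  simp only [pr, Finset.mem_biUnion, mem_pair]
  constructor
  · rintro ⟨a, ha, h⟩; rw [h]; exact ha
  · intro h; exact ⟨_, h, rfl⟩

lemma image_pr (I : Finset ℕ) : (pr I).image (· / 2) = I := by
  ext x
  simp only [Finset.mem_image, mem_pr]
  constructor
  · rintro ⟨a, ha, rfl⟩; exact ha
  · intro h; exact ⟨2 * x, by simpa using h, by simp⟩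

lemma pair_injective : Function.Injective pair := by
  intro i j h
  have : 2 * i ∈ pair j := by rw [← h, mem_pair]; omega
  rw [mem_pair] at this; omega

lemma pr_sdiff_pair {I : Finset ℕ} {i : ℕ} : pr I \ pair i = pr (I.erase i) := by
  ext x
  simp only [Finset.mem_sdiff, mem_pr, mem_pair, Finset.mem_erase]
  tauto

lemma pair_subset_pr {I : Finset ℕ} {i : ℕ} (hi : i ∈ I) : pair i ⊆ pr I := by
  intro x hx
  rw [mem_pair] at hx
  rw [mem_pr, hx]; exact hi

/-- Product of the fourth powers of the differences within blocks. -/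
noncomputable def Th (𝕜 : Type*) [Field 𝕜] (I : Finset ℕ) : MvPolynomial ℕ 𝕜 :=
  ∏ i ∈ I, (X (2 * i) - X (2 * i + 1)) ^ 4

lemma Th_mem (I : Finset ℕ) : Th 𝕜 I ∈
    Algebra.adjoin 𝕜 (X '' (↑(pr I) : Set ℕ) : Set (MvPolynomial ℕ 𝕜)) := by
  unfold Th
  apply Subalgebra.prod_mem
  intro i hi
  apply diff_pow_mem_adj
  · simp only [Finset.mem_coe, mem_pr]
    convert hi using 1; omega
  · simp only [Finset.mem_coe, mem_pr]
    convert hi using 1; omega

lemma Th_erase {I : Finset ℕ} {i : ℕ} (hi : i ∈ I) :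
    Th 𝕜 I = (X (2 * i) - X (2 * i + 1)) ^ 4 * Th 𝕜 (I.erase i) := by
  unfold Th
  exact (Finset.mul_prod_erase I (fun i => ((X (2 * i) - X (2 * i + 1)) ^ 4 :
    MvPolynomial ℕ 𝕜)) hi).symm

/-- Number of bijections between `I` and the list matching `s i` with minus the entry. -/
def perm : List ℤ → Finset ℕ → (ℕ → ℤ) → ℕ
  | [], I, _ => if I = ∅ then 1 else 0
  | m :: ms, I, s => ∑ i ∈ I, if s i + m = 0 then perm ms (I.erase i) s else 0

/-- The shifted block sums. -/
def bs (n : ℕ → ℤ) : ℕ → ℤ := fun i => n (2 * i) + n (2 * i + 1) + 4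

lemma act_inv {F : (ℕ → ℤ) → U} {i : ℕ} (hF : Inv F i) (P : MvPolynomial ℕ 𝕜) :
    Inv (act 𝕜 U P F) i := by
  have h1 : act 𝕜 U (X i) F = F := by
    funext n; rw [act_X]; exact hF n
  intro n
  have h2 : act 𝕜 U (X i) (act 𝕜 U P F) = act 𝕜 U P F := by rw [act_comm, h1]
  have h3 := congrFun h2 n
  rwa [act_X] at h3

lemma FA_pair {c : 𝕜} {e : ℤ → U} (he : IsVir c e) (m : ℤ) (i : ℕ) (n : ℕ → ℤ) :
    FA 𝕜 e (pair i) n (e m) =
      (((n (2 * i + 1) - m : ℤ) : 𝕜) * ((n (2 * i) - (n (2 * i + 1) + m) : ℤ) : 𝕜)) •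
        e (n (2 * i) + n (2 * i + 1) + m) +
      (((n (2 * i + 1) - m : ℤ) : 𝕜) * (c * ((n (2 * i) : 𝕜) ^ 3 - (n (2 * i) : 𝕜)) / 12)) •
        (if n (2 * i) + n (2 * i + 1) + m = 0 then (1 : U) else 0) := by
  have h1 : FA 𝕜 e (pair i) n = adL 𝕜 (e (n (2 * i))) * adL 𝕜 (e (n (2 * i + 1))) := by
    have h2 : pair i = insert (2 * i) (insert (2 * i + 1) ∅) := by
      simp [pair]
    rw [h2, FA_insert, FA_insert, FA_empty, mul_one]
    · simp
    · simp
  have hz : ∀ z : 𝕜, ∀ p : Prop, ∀ a : U, [Decidable p] →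
      adL 𝕜 a (if p then algebraMap 𝕜 U z else 0) = 0 := by
    intro z p a _
    split_ifs
    · rw [adL_algebraMap]
    · simp
  rw [h1, Module.End.mul_apply, adL_e_e he, map_add, hz, add_zero, map_smul, adL_e_e he,
    ← add_assoc, smul_add, smul_smul]
  congr 1
  split_ifs
  · rw [Algebra.algebraMap_eq_smul_one, smul_smul]
  · simp

lemma act_pow_four_pair {c : 𝕜} {e : ℤ → U} (he : IsVir c e) (m : ℤ) (i : ℕ) :
    act 𝕜 U ((X (2 * i) - X (2 * i + 1)) ^ 4) (fun n => FA 𝕜 e (pair i) n (e m)) =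
      fun n => (if bs n i + m = 0 then (-2 * c) else 0) • (1 : U) := by
  have h1 : ((X (2 * i) - X (2 * i + 1)) ^ 4 : MvPolynomial ℕ 𝕜) =
      X (2 * i) * (X (2 * i) * (X (2 * i) * X (2 * i))) -
      (4:𝕜) • (X (2 * i) * (X (2 * i) * (X (2 * i) * X (2 * i + 1)))) +
      (6:𝕜) • (X (2 * i) * (X (2 * i) * (X (2 * i + 1) * X (2 * i + 1)))) -
      (4:𝕜) • (X (2 * i) * (X (2 * i + 1) * (X (2 * i + 1) * X (2 * i + 1)))) +
      X (2 * i + 1) * (X (2 * i + 1) * (X (2 * i + 1) * X (2 * i + 1))) := by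
    simp only [MvPolynomial.smul_eq_C_mul]
    have h4 : (C 4 : MvPolynomial ℕ 𝕜) = 4 := map_ofNat C 4
    have h6 : (C 6 : MvPolynomial ℕ 𝕜) = 6 := map_ofNat C 6
    rw [h4, h6]
    ring
  rw [h1]
  funext n
  simp only [map_sub, map_add, map_smul, map_mul, LinearMap.sub_apply, LinearMap.add_apply,
    LinearMap.smul_apply, Module.End.mul_apply, Pi.sub_apply, Pi.add_apply, Pi.smul_apply, act_X]
  simp only [FA_pair he]
  have hne : (2 * i + 1 : ℕ) ≠ 2 * i := by omega
  simp only [Pi.add_apply, Pi.single_eq_same, Pi.single_eq_of_ne hne, Pi.single_eq_of_ne hne.symm,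
    add_zero]
  unfold bs
  generalize n (2 * i) = a
  generalize n (2 * i + 1) = b
  have hs : a + 1 + 1 + 1 + 1 + b + m = a + b + 4 + m := by ring
  have hs1 : a + 1 + 1 + 1 + (b + 1) + m = a + b + 4 + m := by ring
  have hs2 : a + 1 + 1 + (b + 1 + 1) + m = a + b + 4 + m := by ring
  have hs3 : a + 1 + (b + 1 + 1 + 1) + m = a + b + 4 + m := by ring
  have hs4 : a + (b + 1 + 1 + 1 + 1) + m = a + b + 4 + m := by ring
  rw [hs, hs1, hs2, hs3, hs4]
  have hW : (if a + b + 4 + m = 0 then -2 * c else 0) • (1 : U) =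
      (-2 * c) • (if a + b + 4 + m = 0 then (1 : U) else 0) := by
    split_ifs <;> simp
  rw [hW]
  generalize (if a + b + 4 + m = 0 then (1 : U) else 0) = W
  generalize e (a + b + 4 + m) = E
  push_cast
  module

lemma claimB {c : 𝕜} {e : ℤ → U} (he : IsVir c e) (ms : List ℤ) : ∀ I : Finset ℕ,
    I.card = ms.length →
    act 𝕜 U (Th 𝕜 I) (fun n => FA 𝕜 e (pr I) n ((ms.map e).prod)) -
      (fun n => ((-2 * c) ^ ms.length * (perm ms I (bs n) : 𝕜)) • (1 : U)) ∈ KK 𝕜 U (pr I) := by
  induction ms with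
  | nil =>
    intro I hI
    have hI' : I = ∅ := by simpa using hI
    subst hI'
    have : act 𝕜 U (Th 𝕜 ∅) (fun n => FA 𝕜 e (pr ∅) n ((([] : List ℤ).map e).prod)) -
      (fun n => ((-2 * c) ^ ([] : List ℤ).length * (perm [] ∅ (bs n) : 𝕜)) • (1 : U)) = 0 := by
      funext n
      simp [Th, pr, FA_empty, perm]
    rw [this]; exact Submodule.zero_mem _
  | cons m ms ih =>
    intro I hI
    have hlen : I.card = ms.length + 1 := by simpa using hI
    set rest : U := (ms.map e).prod with hrest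
    have e1 : (fun n => FA 𝕜 e (pr I) n (((m :: ms).map e).prod)) =
        ∑ S ∈ (pr I).powerset, (fun n => FA 𝕜 e S n (e m) * FA 𝕜 e (pr I \ S) n rest) := by
      funext n
      rw [List.map_cons, List.prod_cons, FA_leibniz, Finset.sum_apply]
    -- split the sum
    have e2 : (pr I).powerset.filter (fun S => S ∈ I.image pair) = I.image pair := by
      ext S
      simp only [Finset.mem_filter, Finset.mem_powerset, Finset.mem_image]
      constructor
      · exact fun h => h.2
      · rintro ⟨i, hi, rfl⟩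
        exact ⟨pair_subset_pr hi, i, hi, rfl⟩
    have e3 : ∑ S ∈ (pr I).powerset, (fun n => FA 𝕜 e S n (e m) * FA 𝕜 e (pr I \ S) n rest) =
        ∑ i ∈ I, (fun n => FA 𝕜 e (pair i) n (e m) * FA 𝕜 e (pr (I.erase i)) n rest) +
        ∑ S ∈ (pr I).powerset.filter (fun S => S ∉ I.image pair),
          (fun n => FA 𝕜 e S n (e m) * FA 𝕜 e (pr I \ S) n rest) := by
      rw [← Finset.sum_filter_add_sum_filter_not _ (fun S => S ∈ I.image pair), e2,
        Finset.sum_image (fun a _ b _ h => pair_injective h)]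
      simp only [pr_sdiff_pair]
    -- the terms where a full block hits the first factor
    have e4 : ∀ i ∈ I, act 𝕜 U (Th 𝕜 I)
        (fun n => FA 𝕜 e (pair i) n (e m) * FA 𝕜 e (pr (I.erase i)) n rest) =
        fun n => ((if bs n i + m = 0 then (-2 * c) else 0) • (1 : U)) *
          act 𝕜 U (Th 𝕜 (I.erase i)) (fun n => FA 𝕜 e (pr (I.erase i)) n rest) n := by
      intro i hi
      rw [Th_erase hi, map_mul, Module.End.mul_apply,
        act_mul_left (Th 𝕜 (I.erase i)) (↑(pr (I.erase i))) (Th_mem _)]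
      · rw [act_mul_right _ (↑(pair i)) (diff_pow_mem_adj (by simp [pair]) (by simp [pair]) 4),
          act_pow_four_pair he]
        intro j hj
        apply act_inv
        apply FA_inv
        rw [mem_pr]
        rw [Finset.mem_coe, mem_pair] at hj
        simp [hj]
      · intro j hj
        apply FA_inv
        rw [mem_pair]
        rw [Finset.mem_coe, mem_pr] at hj
        intro h
        rw [h] at hj
        simp at hj
    -- remaining terms
    have e5 : ∀ S ∈ (pr I).powerset.filter (fun S => S ∉ I.image pair),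
        (fun n => FA 𝕜 e S n (e m) * FA 𝕜 e (pr I \ S) n rest) ∈ KK 𝕜 U (pr I) := by
      intro S hS
      rw [Finset.mem_filter, Finset.mem_powerset] at hS
      obtain ⟨hSA, hSn⟩ := hS
      by_cases hb : ∃ i ∈ S, ∃ j ∈ S, i / 2 ≠ j / 2
      · obtain ⟨i, hi, j, hj, hij⟩ := hb
        refine Kl_le_KK (hSA hi) (hSA hj) hij ?_
        refine mul_right_mem_Kl (FA_inv e _ ?_) (FA_inv e _ ?_) (FA_single_mem_Kl he m hi hj)
        · simp [hi]
        · simp [hj]
      · push Not at hb
        refine KK_mono (Finset.sdiff_subset : pr I \ S ⊆ pr I) ?_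
        refine mul_left_mem_KK (fun i hi => FA_inv e _ (Finset.mem_sdiff.1 hi).2) ?_
        apply claimA he
        have h1 : I ⊆ (pr I \ S).image (· / 2) := by
          intro i hi
          by_contra hcon
          apply hSn
          rw [Finset.mem_image]
          refine ⟨i, hi, ?_⟩
          have hx : ∀ x, x / 2 = i → x ∈ S := by
            intro x hx
            by_contra hxS
            exact hcon (Finset.mem_image.2 ⟨x, Finset.mem_sdiff.2
              ⟨mem_pr.2 (by rw [hx]; exact hi), hxS⟩, hx⟩)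
          ext x
          rw [mem_pair]
          constructor
          · exact hx x
          · intro hxS
            have h2 : 2 * i ∈ S := hx _ (by omega)
            rw [hb x hxS _ h2]; omega
        have h2 := Finset.card_le_card h1
        omega
    have e6 : act 𝕜 U (Th 𝕜 I) (fun n => FA 𝕜 e (pr I) n (((m :: ms).map e).prod)) -
        (fun n => ((-2 * c) ^ (m :: ms).length * (perm (m :: ms) I (bs n) : 𝕜)) • (1 : U)) =
        ∑ i ∈ I, (fun n => ((if bs n i + m = 0 then (-2 * c) else 0) • (1 : U)) *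
          (act 𝕜 U (Th 𝕜 (I.erase i)) (fun n => FA 𝕜 e (pr (I.erase i)) n rest) -
          (fun n => ((-2 * c) ^ ms.length * (perm ms (I.erase i) (bs n) : 𝕜)) • (1 : U))) n) +
        act 𝕜 U (Th 𝕜 I) (∑ S ∈ (pr I).powerset.filter (fun S => S ∉ I.image pair),
          (fun n => FA 𝕜 e S n (e m) * FA 𝕜 e (pr I \ S) n rest)) := by
      rw [e1, e3, map_add, map_sum, Finset.sum_congr rfl e4]
      rw [add_sub_right_comm]
      congr 1
      funext n
      rw [Pi.sub_apply, Finset.sum_apply, Finset.sum_apply]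
      simp only [Pi.sub_apply, mul_sub, Finset.sum_sub_distrib]
      congr 1
      simp only [perm, List.length_cons]
      push_cast
      rw [Finset.mul_sum, Finset.sum_smul]
      refine Finset.sum_congr rfl ?_
      intro i hi
      split_ifs with h
      · rw [smul_mul_smul_comm, one_mul]
        congr 1
        ring
      · simp
    rw [e6]
    refine Submodule.add_mem _ (Submodule.sum_mem _ ?_) (act_mem_KK _ (Submodule.sum_mem _ e5))
    intro i hi
    refine KK_mono (A := pr (I.erase i)) ?_ ?_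
    · intro x hx
      rw [mem_pr] at hx ⊢
      exact Finset.mem_of_mem_erase hx
    · refine mul_left_mem_KK ?_ (ih (I.erase i) ?_)
      · intro j hj n
        rw [mem_pr, Finset.mem_erase] at hj
        have : bs (n + Pi.single j 1) i = bs n i := by
          unfold bs
          have h1 : 2 * i ≠ j := by rintro rfl; apply hj.1; omega
          have h2 : 2 * i + 1 ≠ j := by rintro rfl; apply hj.1; omega
          simp [h1, h2]
        simp only [this]
      · rw [Finset.card_erase_of_mem hi]; omega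

end Pool.Agent.Lib.VirSimpleK
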