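import Pool.Agent.Lib.MP_94cd9d_al.K.Contract

/-!
Every nonzero subspace stable under the adjoint action of the Virasoro generators contains one,
if the central charge is nonzero.
-/

set_option autoImplicit false
set_option linter.unusedSectionVars false

open MvPolynomial

namespace Pool.Agent.Lib.VirSimpleK

section perm

variable {𝕜 : Type*} [Field 𝕜] [CharZero 𝕜]

lemma perm_ne_zero_iff (ms : List ℤ) : ∀ (I : Finset ℕ) (s : ℕ → ℤ),
    perm ms I s ≠ 0 ↔ (ms : Multiset ℤ) = I.val.map (fun i => - s i) := by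
  induction ms with
  | nil =>
    intro I s
    by_cases h : I = ∅
    · subst h; simp [perm]
    · have h1 : I.val.map (fun i => - s i) ≠ 0 := by
        intro h2
        rw [Multiset.map_eq_zero, Finset.val_eq_zero] at h2
        exact h h2
      simp only [perm, if_neg h, ne_eq, not_true_eq_false, Multiset.coe_nil, false_iff]
      exact fun h2 => h1 h2.symm
  | cons m ms ih =>
    intro I s
    have h0 : perm (m :: ms) I s ≠ 0 ↔ ∃ i ∈ I, s i + m = 0 ∧ perm ms (I.erase i) s ≠ 0 := by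
      simp only [perm, ne_eq, Finset.sum_eq_zero_iff, not_forall]
      constructor
      · rintro ⟨i, hi, h⟩
        split_ifs at h with h1
        · exact ⟨i, hi, h1, h⟩
        · exact absurd rfl h
      · rintro ⟨i, hi, h1, h2⟩
        exact ⟨i, hi, by rw [if_pos h1]; exact h2⟩
    rw [h0]
    have hI : ∀ i ∈ I, I.val.map (fun i => - s i) =
        (- s i) ::ₘ (I.erase i).val.map (fun i => - s i) := by
      intro i hi
      rw [Finset.erase_val]
      conv_lhs => rw [← Multiset.cons_erase (show i ∈ I.val from hi)]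
      rw [Multiset.map_cons]
    constructor
    · rintro ⟨i, hi, h1, h2⟩
      rw [ih] at h2
      rw [hI i hi, ← h2, ← Multiset.cons_coe]
      congr 1
      omega
    · intro h
      have hm : m ∈ I.val.map (fun i => - s i) := by
        rw [← h]; simp
      obtain ⟨i, hi, hmi⟩ := Multiset.mem_map.1 hm
      have hi' : i ∈ I := hi
      refine ⟨i, hi', by omega, ?_⟩
      rw [ih]
      rw [hI i hi', ← Multiset.cons_coe, hmi, Multiset.cons_inj_right] at h
      exact h

/-- Bounded support in the directions of `I`. -/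
def Bdd (I : Finset ℕ) (Ψ : (ℕ → ℤ) → 𝕜) : Prop :=
  ∃ M : ℕ, ∀ s : ℕ → ℤ, (∃ i ∈ I, (M : ℤ) < |s i|) → Ψ s = 0

lemma Bdd.zero (I : Finset ℕ) : Bdd I (0 : (ℕ → ℤ) → 𝕜) := ⟨0, fun _ _ => rfl⟩

lemma Bdd.add {I : Finset ℕ} {Ψ Φ : (ℕ → ℤ) → 𝕜} (h1 : Bdd I Ψ) (h2 : Bdd I Φ) :
    Bdd I (Ψ + Φ) := by
  obtain ⟨M, hM⟩ := h1
  obtain ⟨K, hK⟩ := h2
  refine ⟨M + K, ?_⟩
  rintro s ⟨i, hi, h⟩
  push_cast at h
  rw [Pi.add_apply, hM s ⟨i, hi, by linarith [Int.natCast_nonneg K]⟩,
    hK s ⟨i, hi, by linarith [Int.natCast_nonneg M]⟩, add_zero]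

lemma Bdd.smul {I : Finset ℕ} {Ψ : (ℕ → ℤ) → 𝕜} (a : 𝕜) (h1 : Bdd I Ψ) :
    Bdd I (a • Ψ) := by
  obtain ⟨M, hM⟩ := h1
  exact ⟨M, fun s hs => by rw [Pi.smul_apply, hM s hs, smul_zero]⟩

lemma Bdd.sum {ι : Type*} {I : Finset ℕ} (t : Finset ι) (Ψ : ι → (ℕ → ℤ) → 𝕜)
    (h : ∀ x ∈ t, Bdd I (Ψ x)) : Bdd I (∑ x ∈ t, Ψ x) := by
  classical
  induction t using Finset.induction_on with
  | empty => simpa using Bdd.zero I
  | insert a t ha ih =>
    rw [Finset.sum_insert ha]
    exact (h a (Finset.mem_insert_self _ _)).add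
      (ih (fun x hx => h x (Finset.mem_insert_of_mem hx)))

lemma perm_bdd (ms : List ℤ) (I : Finset ℕ) : Bdd I (fun s => (perm ms I s : 𝕜)) := by
  have h1 : ∃ M : ℕ, ∀ m ∈ ms, |m| ≤ (M : ℤ) := by
    induction ms with
    | nil => exact ⟨0, by simp⟩
    | cons m ms ih =>
      obtain ⟨M, hM⟩ := ih
      refine ⟨M + m.natAbs, ?_⟩
      intro x hx
      push_cast
      rcases List.mem_cons.1 hx with rfl | hx
      · linarith [Int.natCast_nonneg M]
      · linarith [hM x hx, abs_nonneg m]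
  obtain ⟨M, hM⟩ := h1
  refine ⟨M, ?_⟩
  rintro s ⟨i, hi, h⟩
  by_contra hne
  have h2 : perm ms I s ≠ 0 := by
    intro h0
    exact hne (by simp [h0])
  rw [perm_ne_zero_iff] at h2
  have h3 : - s i ∈ I.val.map (fun i => - s i) := Multiset.mem_map.2 ⟨i, hi, rfl⟩
  rw [← h2] at h3
  have h4 := hM _ (by simpa using h3)
  rw [abs_neg] at h4
  omega

/-- Difference of translates. -/
def dz (a b : ℕ) (Ψ : (ℕ → ℤ) → 𝕜) : (ℕ → ℤ) → 𝕜 :=
  fun s => Ψ (s + Pi.single a 1) - Ψ (s + Pi.single b 1)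

lemma dz_bdd {I : Finset ℕ} {a b : ℕ} {Ψ : (ℕ → ℤ) → 𝕜} (h : Bdd I Ψ) : Bdd I (dz a b Ψ) := by
  obtain ⟨M, hM⟩ := h
  refine ⟨M + 1, ?_⟩
  rintro s ⟨i, hi, h⟩
  push_cast at h
  have key : ∀ a : ℕ, (M : ℤ) < |(s + Pi.single a 1 : ℕ → ℤ) i| := by
    intro a
    rw [Pi.add_apply, Pi.single_apply]
    have h1 : |s i| ≤ |s i + (if i = a then (1 : ℤ) else 0)| + |(if i = a then (1 : ℤ) else 0)| := by
      have := abs_sub (s i + (if i = a then (1 : ℤ) else 0)) (if i = a then (1 : ℤ) else 0)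
      simpa using this
    have h2 : |(if i = a then (1 : ℤ) else 0)| ≤ 1 := by
      split_ifs <;> simp
    linarith
  rw [dz, hM _ ⟨i, hi, key a⟩, hM _ ⟨i, hi, key b⟩, sub_zero]

lemma dz_ne_zero {I : Finset ℕ} {a b : ℕ} (hab : a ≠ b) (ha : a ∈ I) {Ψ : (ℕ → ℤ) → 𝕜}
    (h : Bdd I Ψ) (h0 : ∃ s, Ψ s ≠ 0) : ∃ s, dz a b Ψ s ≠ 0 := by
  by_contra hcon
  push Not at hcon
  obtain ⟨s, hs⟩ := h0
  obtain ⟨M, hM⟩ := h
  have key : ∀ k : ℕ, Ψ (s + (k : ℤ) • (Pi.single a 1 - Pi.single b 1 : ℕ → ℤ)) = Ψ s := by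
    intro k
    induction k with
    | zero => simp
    | succ k ih =>
      have h1 := hcon (s + (k : ℤ) • (Pi.single a 1 - Pi.single b 1 : ℕ → ℤ) - Pi.single b 1)
      rw [dz, sub_eq_zero, sub_add_cancel, ih] at h1
      rw [← h1]
      congr 1
      push_cast
      rw [add_smul, one_smul]
      abel
  have hk := key (M + (s a).natAbs + 1)
  apply hs
  rw [← hk]
  apply hM
  refine ⟨a, ha, ?_⟩
  simp only [Pi.add_apply, Pi.smul_apply, Pi.sub_apply, Pi.single_eq_same,
    Pi.single_eq_of_ne hab, sub_zero, smul_eq_mul, mul_one]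
  push_cast
  have h1 : -|s a| ≤ s a := neg_abs_le _
  rw [abs_of_nonneg (by linarith [Int.natCast_nonneg M])]
  linarith

end perm

variable {𝕜 : Type*} [Field 𝕜] [CharZero 𝕜] {U : Type*} [Ring U] [Algebra 𝕜 U]

lemma bs_add_single (n : ℕ → ℤ) (j : ℕ) :
    bs (n + Pi.single j 1) = bs n + Pi.single (j / 2) 1 := by
  funext i
  unfold bs
  simp only [Pi.add_apply, Pi.single_apply]
  by_cases h : i = j / 2
  · rw [if_pos h]
    rcases Nat.even_or_odd' j with ⟨k, hk | hk⟩
    · have h1 : 2 * i = j := by omega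
      have h2 : 2 * i + 1 ≠ j := by omega
      rw [if_pos h1, if_neg h2]; ring
    · have h1 : 2 * i ≠ j := by omega
      have h2 : 2 * i + 1 = j := by omega
      rw [if_neg h1, if_pos h2]; ring
  · have h1 : 2 * i ≠ j := by omega
    have h2 : 2 * i + 1 ≠ j := by omega
    rw [if_neg h1, if_neg h2, if_neg h]; ring

lemma bs_surj (s : ℕ → ℤ) : ∃ n, bs n = s := by
  refine ⟨fun j => if j % 2 = 0 then s (j / 2) - 4 else 0, ?_⟩
  funext i
  unfold bs
  have h1 : (2 * i) % 2 = 0 := by omega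
  have h2 : (2 * i + 1) % 2 ≠ 0 := by omega
  have h3 : 2 * i / 2 = i := by omega
  simp only [h1, h2, if_true, if_false, h3]
  ring

lemma act_scalar (i j : ℕ) (Ψ : (ℕ → ℤ) → 𝕜) :
    act 𝕜 U (X i - X j) (fun n => Ψ (bs n) • (1 : U)) =
      fun n => (dz (i / 2) (j / 2) Ψ) (bs n) • (1 : U) := by
  funext n
  rw [map_sub, LinearMap.sub_apply, Pi.sub_apply, act_X, act_X, bs_add_single, bs_add_single]
  rw [dz, sub_smul]

/-- The good scalar families. -/
def Good (𝕜 : Type*) [Field 𝕜] (U : Type*) [Ring U] [Algebra 𝕜 U] (I : Finset ℕ) (P : MvPolynomial ℕ 𝕜) : Prop :=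
  ∀ Ψ : (ℕ → ℤ) → 𝕜, Bdd I Ψ → (∃ s, Ψ s ≠ 0) →
    ∃ Φ : (ℕ → ℤ) → 𝕜, Bdd I Φ ∧ (∃ s, Φ s ≠ 0) ∧
      act 𝕜 U P (fun n => Ψ (bs n) • (1 : U)) = fun n => Φ (bs n) • (1 : U)

lemma Good.one (I : Finset ℕ) : Good 𝕜 U I 1 := by
  intro Ψ h1 h2
  exact ⟨Ψ, h1, h2, by simp⟩

lemma Good.mul {I : Finset ℕ} {P Q : MvPolynomial ℕ 𝕜} (hP : Good 𝕜 U I P) (hQ : Good 𝕜 U I Q) :
    Good 𝕜 U I (P * Q) := by
  intro Ψ h1 h2
  obtain ⟨Φ, h3, h4, h5⟩ := hQ Ψ h1 h2
  obtain ⟨Φ', h6, h7, h8⟩ := hP Φ h3 h4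
  exact ⟨Φ', h6, h7, by rw [map_mul, Module.End.mul_apply, h5, h8]⟩

lemma Good.pow {I : Finset ℕ} {P : MvPolynomial ℕ 𝕜} (hP : Good 𝕜 U I P) (N : ℕ) :
    Good 𝕜 U I (P ^ N) := by
  induction N with
  | zero => simpa using Good.one I
  | succ N ih => rw [pow_succ]; exact ih.mul hP

lemma good_DD (I : Finset ℕ) : Good 𝕜 U I (DD 𝕜 (pr I)) := by
  unfold DD
  apply Finset.prod_induction (fun p : ℕ × ℕ => (X p.1 - X p.2 : MvPolynomial ℕ 𝕜)) (Good 𝕜 U I)
  · intro a b; exact Good.mul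
  · exact Good.one I
  · intro p hp Ψ h1 h2
    rw [mem_bad, mem_pr, mem_pr] at hp
    exact ⟨_, dz_bdd h1, dz_ne_zero hp.2.2 hp.1 h1 h2, act_scalar _ _ _⟩

/-- Products of at most `d` generators. -/
def Fil (𝕜 : Type*) [Field 𝕜] {U : Type*} [Ring U] [Algebra 𝕜 U] (e : ℤ → U) (d : ℕ) : Submodule 𝕜 U :=
  Submodule.span 𝕜 {u | ∃ ms : List ℤ, ms.length ≤ d ∧ u = (ms.map e).prod}

lemma Fil_mono (e : ℤ → U) {d d' : ℕ} (h : d ≤ d') : Fil 𝕜 e d ≤ Fil 𝕜 e d' := by
  apply Submodule.span_mono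
  rintro u ⟨ms, h1, h2⟩
  exact ⟨ms, h1.trans h, h2⟩

lemma prod_mem_Fil (e : ℤ → U) {d : ℕ} {ms : List ℤ} (h : ms.length ≤ d) :
    (ms.map e).prod ∈ Fil 𝕜 e d := Submodule.subset_span ⟨ms, h, rfl⟩

lemma mul_mem_Fil (e : ℤ → U) (m : ℤ) {d : ℕ} {u : U} (hu : u ∈ Fil 𝕜 e d) :
    e m * u ∈ Fil 𝕜 e (d + 1) := by
  unfold Fil at hu
  induction hu using Submodule.span_induction with
  | mem x hx =>
    obtain ⟨ms, h1, rfl⟩ := hx
    have : e m * (ms.map e).prod = ((m :: ms).map e).prod := by simp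
    rw [this]
    exact prod_mem_Fil e (by simpa using h1)
  | zero => simp
  | add x y _ _ hx hy => rw [mul_add]; exact Submodule.add_mem _ hx hy
  | smul a x _ hx => rw [mul_smul_comm]; exact Submodule.smul_mem _ _ hx

lemma perm_mem_Fil {c : 𝕜} {e : ℤ → U} (he : IsVir c e) {l l' : List ℤ} (h : l.Perm l') :
    ∀ d : ℕ, l.length ≤ d + 1 → (l.map e).prod - (l'.map e).prod ∈ Fil 𝕜 e d := by
  induction h with
  | nil => intro d _; simp
  | cons a hl ih =>
    rename_i l1 l2
    intro d hd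
    simp only [List.map_cons, List.prod_cons, ← mul_sub]
    cases d with
    | zero =>
      have : l1 = [] := by
        have : l1.length = 0 := by simp at hd; simpa using hd
        exact List.length_eq_zero_iff.1 this
      subst this
      have : l2 = [] := by simpa using hl
      subst this
      simp
    | succ d =>
      apply mul_mem_Fil
      apply ih
      simpa using hd
  | swap a b l =>
    intro d hd
    have h1 : ((b :: a :: l).map e).prod - ((a :: b :: l).map e).prod =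
        (e b * e a - e a * e b) * (l.map e).prod := by
      simp only [List.map_cons, List.prod_cons]; noncomm_ring
    simp only [List.length_cons] at hd
    rw [h1, he b a, add_mul, smul_mul_assoc]
    refine Submodule.add_mem _ (Submodule.smul_mem _ _ ?_) ?_
    · have : e (b + a) * (l.map e).prod = (((b + a) :: l).map e).prod := by simp
      rw [this]
      exact prod_mem_Fil e (by simp; omega)
    · split_ifs
      · rw [Algebra.algebraMap_eq_smul_one, smul_mul_assoc, one_mul]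
        exact Submodule.smul_mem _ _ (prod_mem_Fil e (by omega))
      · simp
  | trans h1 h2 ih1 ih2 =>
    rename_i l1 l2 l3
    intro d hd
    have := Submodule.add_mem _ (ih1 d hd) (ih2 d (by rw [← h1.length_eq]; exact hd))
    simpa using this

lemma decomp {c : 𝕜} {e : ℤ → U} (he : IsVir c e) {d : ℕ} {f : U} (hf : f ∈ Fil 𝕜 e (d + 1)) :
    ∃ (φ : {M : Multiset ℤ // M.card = d + 1} →₀ 𝕜) (g : U), g ∈ Fil 𝕜 e d ∧
      f = g + φ.sum (fun M a => a • (M.1.toList.map e).prod) := by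
  unfold Fil at hf
  induction hf using Submodule.span_induction with
  | mem x hx =>
    obtain ⟨ms, h1, rfl⟩ := hx
    by_cases h2 : ms.length ≤ d
    · exact ⟨0, _, prod_mem_Fil e h2, by simp⟩
    · have h3 : (ms : Multiset ℤ).card = d + 1 := by simp; omega
      have h4 : ms.Perm (ms : Multiset ℤ).toList := by
        rw [← Multiset.coe_eq_coe, Multiset.coe_toList]
      refine ⟨Finsupp.single ⟨(ms : Multiset ℤ), h3⟩ 1, _, perm_mem_Fil he h4 d h1, ?_⟩
      rw [Finsupp.sum_single_index (by simp)]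
      simp
  | zero => exact ⟨0, 0, Submodule.zero_mem _, by simp⟩
  | add x y _ _ hx hy =>
    obtain ⟨φ, g, hg, h1⟩ := hx
    obtain ⟨φ', g', hg', h1'⟩ := hy
    refine ⟨φ + φ', g + g', Submodule.add_mem _ hg hg', ?_⟩
    rw [Finsupp.sum_add_index' (by simp) (by intros; rw [add_smul]), h1, h1']
    abel
  | smul a x _ hx =>
    obtain ⟨φ, g, hg, h1⟩ := hx
    refine ⟨a • φ, a • g, Submodule.smul_mem _ _ hg, ?_⟩
    rw [Finsupp.sum_smul_index' (by simp), h1, smul_add, Finsupp.smul_sum]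
    simp only [smul_assoc]

lemma act_mem (J : Submodule 𝕜 U) (P : MvPolynomial ℕ 𝕜) : ∀ F : (ℕ → ℤ) → U,
    (∀ n, F n ∈ J) → ∀ n, act 𝕜 U P F n ∈ J := by
  induction P using MvPolynomial.induction_on with
  | C a =>
    intro F hF n
    have : act 𝕜 U (C a) F = a • F := by
      rw [← MvPolynomial.algebraMap_eq, AlgHom.commutes, Module.algebraMap_end_apply]
    rw [this]
    exact J.smul_mem _ (hF n)
  | add p q hp hq =>
    intro F hF n
    rw [map_add, LinearMap.add_apply, Pi.add_apply]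
    exact J.add_mem (hp F hF n) (hq F hF n)
  | mul_X p r hp =>
    intro F hF n
    rw [map_mul, Module.End.mul_apply]
    apply hp
    intro n
    rw [act_X]
    exact hF _

lemma Fil_kill {c : 𝕜} {e : ℤ → U} (he : IsVir c e) {d : ℕ} {g : U} (hg : g ∈ Fil 𝕜 e d)
    {I : Finset ℕ} (hI : I.card = d + 1) : (fun n => FA 𝕜 e (pr I) n g) ∈ KK 𝕜 U (pr I) := by
  unfold Fil at hg
  induction hg using Submodule.span_induction with
  | mem x hx =>
    obtain ⟨ms, h1, rfl⟩ := hx
    apply claimA he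
    rw [image_pr, hI]; omega
  | zero =>
    have : (fun n => FA 𝕜 e (pr I) n (0 : U)) = 0 := by funext n; simp
    rw [this]; exact Submodule.zero_mem _
  | add x y _ _ hx hy =>
    have : (fun n => FA 𝕜 e (pr I) n (x + y)) =
      (fun n => FA 𝕜 e (pr I) n x) + (fun n => FA 𝕜 e (pr I) n y) := by funext n; simp
    rw [this]; exact Submodule.add_mem _ hx hy
  | smul a x _ hx =>
    have : (fun n => FA 𝕜 e (pr I) n (a • x)) = a • (fun n => FA 𝕜 e (pr I) n x) := by
      funext n; simp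
    rw [this]; exact Submodule.smul_mem _ _ hx

/-- Every nonzero subspace stable under the inner derivations of the generators contains `1`. -/
theorem one_mem_of_stable {c : 𝕜} (hc : c ≠ 0) {e : ℤ → U} (he : IsVir c e)
    (hgen : ∀ u : U, ∃ d, u ∈ Fil 𝕜 e d)
    (J : Submodule 𝕜 U) (hJ : ∀ (m : ℤ), ∀ u ∈ J, adL 𝕜 (e m) u ∈ J)
    {f : U} (hf : f ∈ J) (hf0 : f ≠ 0) : (1 : U) ∈ J := by
  classical
  have hex : ∃ d, f ∈ Fil 𝕜 e d := hgen f
  set d := Nat.find hex with hd
  have hfd : f ∈ Fil 𝕜 e d := Nat.find_spec hex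
  have hmin : ∀ k < d, f ∉ Fil 𝕜 e k := fun k hk => Nat.find_min hex hk
  clear_value d
  cases d with
  | zero =>
    have h1 : Fil 𝕜 e 0 ≤ Submodule.span 𝕜 {(1 : U)} := by
      apply Submodule.span_le.2
      rintro u ⟨ms, h1, rfl⟩
      have : ms = [] := List.length_eq_zero_iff.1 (by omega)
      subst this
      simp
    obtain ⟨z, hz⟩ := Submodule.mem_span_singleton.1 (h1 hfd)
    have hz0 : z ≠ 0 := by
      rintro rfl
      exact hf0 (by rw [← hz, zero_smul])
    have : (1 : U) = z⁻¹ • f := by rw [← hz, smul_smul, inv_mul_cancel₀ hz0, one_smul]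
    rw [this]
    exact J.smul_mem _ hf
  | succ d =>
    obtain ⟨φ, g, hg, hfg⟩ := decomp he hfd
    have hφ : φ ≠ 0 := by
      rintro rfl
      apply hmin d (Nat.lt_succ_self d)
      rw [hfg]; simpa using hg
    obtain ⟨M0, hM0⟩ := Finsupp.ne_iff.1 hφ
    rw [Finsupp.zero_apply] at hM0
    set I := Finset.range (d + 1) with hI
    have hIc : I.card = d + 1 := by simp [hI]
    -- the scalar function
    set Ψ : (ℕ → ℤ) → 𝕜 := (-2 * c) ^ (d + 1) •
      ∑ M ∈ φ.support, φ M • (fun s => (perm M.1.toList I s : 𝕜)) with hΨ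
    have hΨb : Bdd I Ψ := by
      apply Bdd.smul
      apply Bdd.sum
      intro M _
      exact (perm_bdd _ _).smul _
    have hΨ0 : ∃ s, Ψ s ≠ 0 := by
      have hlen : M0.1.toList.length = d + 1 := by rw [Multiset.length_toList]; exact M0.2
      refine ⟨fun i => - (M0.1.toList.getD i 0), ?_⟩
      set s0 : ℕ → ℤ := fun i => - (M0.1.toList.getD i 0) with hs0
      have hmap : I.val.map (fun i => - s0 i) = M0.1 := by
        have h1 : M0.1.toList = (List.range (d + 1)).map (fun i => M0.1.toList.getD i 0) := by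
          apply List.ext_getElem
          · simp [hlen]
          · intro i h1 h2
            simp only [List.getElem_map, List.getElem_range]
            rw [List.getD_eq_getElem _ _ h1]
        conv_rhs => rw [← Multiset.coe_toList M0.1, h1]
        rw [hI, Finset.range_val, Multiset.range, Multiset.map_coe]
        simp [hs0]
      have hterm : ∀ M ∈ φ.support, M ≠ M0 → φ M * (perm M.1.toList I s0 : 𝕜) = 0 := by
        intro M _ hne
        have : perm M.1.toList I s0 = 0 := by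
          by_contra h
          have h' := (perm_ne_zero_iff _ _ _).1 h
          rw [Multiset.coe_toList, hmap] at h'
          exact hne (Subtype.ext h')
        rw [this]; simp
      have hM0p : perm M0.1.toList I s0 ≠ 0 := by
        rw [perm_ne_zero_iff, Multiset.coe_toList, hmap]
      have hval : Ψ s0 = (-2 * c) ^ (d + 1) * (φ M0 * (perm M0.1.toList I s0 : 𝕜)) := by
        rw [hΨ, Pi.smul_apply, Finset.sum_apply, smul_eq_mul]
        congr 1
        rw [Finset.sum_eq_single M0]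
        · simp
        · intro M hM hne
          simpa using hterm M hM hne
        · intro h
          exact absurd (Finsupp.notMem_support_iff.1 h) hM0
      rw [hval]
      refine mul_ne_zero (pow_ne_zero _ (mul_ne_zero (by norm_num) hc)) (mul_ne_zero hM0 ?_)
      exact_mod_cast hM0p
    -- reduction modulo killed families
    have hred : act 𝕜 U (Th 𝕜 I) (fun n => FA 𝕜 e (pr I) n f) - (fun n => Ψ (bs n) • (1 : U)) ∈
        KK 𝕜 U (pr I) := by
      have h1 : act 𝕜 U (Th 𝕜 I) (fun n => FA 𝕜 e (pr I) n f) - (fun n => Ψ (bs n) • (1 : U)) =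
          act 𝕜 U (Th 𝕜 I) (fun n => FA 𝕜 e (pr I) n g) +
          ∑ M ∈ φ.support, φ M • (act 𝕜 U (Th 𝕜 I) (fun n => FA 𝕜 e (pr I) n (M.1.toList.map e).prod) -
            (fun n => ((-2 * c) ^ M.1.toList.length * (perm M.1.toList I (bs n) : 𝕜)) •
              (1 : U))) := by
        have h2 : (fun n => FA 𝕜 e (pr I) n f) = (fun n => FA 𝕜 e (pr I) n g) +
            ∑ M ∈ φ.support, φ M • (fun n => FA 𝕜 e (pr I) n (M.1.toList.map e).prod) := by
          funext n
          rw [hfg, map_add, Finsupp.sum, map_sum, Pi.add_apply, Finset.sum_apply]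
          simp
        rw [h2, map_add, map_sum]
        simp only [map_smul, smul_sub, Finset.sum_sub_distrib]
        rw [add_sub_assoc]
        congr 2
        funext n
        rw [Finset.sum_apply, hΨ, Pi.smul_apply, Finset.sum_apply, Finset.smul_sum,
          Finset.sum_smul]
        refine Finset.sum_congr rfl ?_
        intro M _
        have hlen : M.1.toList.length = d + 1 := by rw [Multiset.length_toList]; exact M.2
        simp only [Pi.smul_apply, smul_smul, smul_eq_mul, hlen]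
        congr 1
        ring
      rw [h1]
      refine Submodule.add_mem _ (act_mem_KK _ (Fil_kill he hg hIc)) ?_
      refine Submodule.sum_mem _ ?_
      intro M _
      refine Submodule.smul_mem _ _ (claimB he _ _ ?_)
      rw [hIc, Multiset.length_toList]; exact M.2.symm
    obtain ⟨N, hN⟩ := exists_pow_kill hred
    rw [map_sub, sub_eq_zero] at hN
    obtain ⟨Φ, _, ⟨s, hs⟩, hΦ⟩ := (good_DD (𝕜 := 𝕜) (U := U) I).pow N Ψ hΨb hΨ0
    rw [hΦ] at hN
    obtain ⟨n, hn⟩ := bs_surj s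
    have hmem : act 𝕜 U (DD 𝕜 (pr I) ^ N) (act 𝕜 U (Th 𝕜 I) (fun n => FA 𝕜 e (pr I) n f)) n ∈ J := by
      apply act_mem
      apply act_mem
      intro n
      exact FA_mem e J hJ n hf _
    rw [hN] at hmem
    have hmem' : Φ s • (1 : U) ∈ J := by
      rw [← hn]; exact hmem
    have : (1 : U) = (Φ s)⁻¹ • (Φ s • (1 : U)) := by
      rw [smul_smul, inv_mul_cancel₀ hs, one_smul]
    rw [this]
    exact J.smul_mem _ hmem'

end Pool.Agent.Lib.VirSimpleK
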