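import Pool.Agent.Lib.MP_94cd9d_al.K.Shift

/-!
Iterated adjoint actions of the Virasoro generators on products.
-/

set_option autoImplicit false
set_option linter.unusedSectionVars false

open MvPolynomial

namespace Pool.Agent.Lib.VirSimpleK

variable {𝕜 : Type*} [Field 𝕜] {U : Type*} [Ring U] [Algebra 𝕜 U]

/-- The Virasoro relations with central charge `c`. -/
def IsVir (c : 𝕜) (e : ℤ → U) : Prop :=
  ∀ m n : ℤ, e m * e n - e n * e m = ((m - n : ℤ) : 𝕜) • e (m + n) +
    (if m + n = 0 then algebraMap 𝕜 U (c * ((m : 𝕜) ^ 3 - (m : 𝕜)) / 12) else 0)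

/-- The inner derivation of `a`. -/
def adL (𝕜 : Type*) [Field 𝕜] {U : Type*} [Ring U] [Algebra 𝕜 U] (a : U) : Module.End 𝕜 U := LinearMap.mulLeft 𝕜 a - LinearMap.mulRight 𝕜 a

lemma adL_apply (a u : U) : adL 𝕜 a u = a * u - u * a := rfl

lemma adL_mul (a x y : U) : adL 𝕜 a (x * y) = adL 𝕜 a x * y + x * adL 𝕜 a y := by
  simp only [adL_apply]; noncomm_ring

lemma adL_algebraMap (a : U) (z : 𝕜) : adL 𝕜 a (algebraMap 𝕜 U z) = 0 := by
  rw [adL_apply, ← Algebra.commutes z a, sub_self]

lemma adL_one (a : U) : adL 𝕜 a (1 : U) = 0 := by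
  rw [adL_apply]; simp

/-- The composition of the inner derivations of `e (n i)` for `i` in `A`, in increasing order. -/
def FA (𝕜 : Type*) [Field 𝕜] {U : Type*} [Ring U] [Algebra 𝕜 U] (e : ℤ → U) (A : Finset ℕ) (n : ℕ → ℤ) : Module.End 𝕜 U :=
  ((A.sort (· ≤ ·)).map (fun i => adL 𝕜 (e (n i)))).prod

lemma FA_empty (e : ℤ → U) (n : ℕ → ℤ) : FA 𝕜 e ∅ n = 1 := by
  simp [FA]

lemma FA_insert (e : ℤ → U) {a : ℕ} {s : Finset ℕ} (h : ∀ x ∈ s, a < x) (n : ℕ → ℤ) :
    FA 𝕜 e (insert a s) n = adL 𝕜 (e (n a)) * FA 𝕜 e s n := by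
  have h1 : a ∉ s := fun ha => lt_irrefl _ (h a ha)
  rw [FA, Finset.sort_insert (· ≤ ·) (fun b hb => (h b hb).le) h1]
  simp [FA]

lemma FA_leibniz (e : ℤ → U) (n : ℕ → ℤ) (x y : U) (A : Finset ℕ) :
    FA 𝕜 e A n (x * y) = ∑ S ∈ A.powerset, FA 𝕜 e S n x * FA 𝕜 e (A \ S) n y := by
  induction A using Finset.induction_on_min with
  | empty => simp [FA_empty]
  | insert a s hs ih =>
    have h1 : a ∉ s := fun ha => lt_irrefl _ (hs a ha)
    rw [Finset.sum_powerset_insert h1, FA_insert e hs, Module.End.mul_apply, ih, map_sum,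
      ← Finset.sum_add_distrib]
    refine Finset.sum_congr rfl ?_
    intro S hS
    have hS' : S ⊆ s := Finset.mem_powerset.1 hS
    have haS : a ∉ S := fun h => h1 (hS' h)
    have e1 : insert a s \ S = insert a (s \ S) := Finset.insert_sdiff_of_notMem _ haS
    have e2 : insert a s \ insert a S = s \ S := by
      ext x; simp only [Finset.mem_sdiff, Finset.mem_insert, not_or]
      constructor
      · rintro ⟨h | h, h2, h3⟩
        · exact absurd h h2
        · exact ⟨h, h3⟩
      · rintro ⟨h, h2⟩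
        exact ⟨Or.inr h, fun hx => h1 (hx ▸ h), h2⟩
    rw [e1, e2, FA_insert e (fun x hx => hs x (Finset.mem_sdiff.1 hx).1),
      FA_insert e (fun x hx => hs x (hS' hx)), Module.End.mul_apply, Module.End.mul_apply, adL_mul]
    rw [add_comm]

lemma FA_inv (e : ℤ → U) (u : U) {A : Finset ℕ} {i : ℕ} (hi : i ∉ A) :
    Inv (fun n => FA 𝕜 e A n u) i := by
  intro n
  have : FA 𝕜 e A (n + Pi.single i 1) = FA 𝕜 e A n := by
    unfold FA
    congr 1
    refine List.map_congr_left ?_
    intro j hj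
    have hj' : j ∈ A := by simpa using hj
    have : j ≠ i := fun h => hi (h ▸ hj')
    simp [this]
  simp only [this]

lemma FA_algebraMap (e : ℤ → U) (n : ℕ → ℤ) (z : 𝕜) {A : Finset ℕ} (hA : A.Nonempty) :
    FA 𝕜 e A n (algebraMap 𝕜 U z) = 0 := by
  induction A using Finset.induction_on_min with
  | empty => simp at hA
  | insert a s hs ih =>
    rw [FA_insert e hs, Module.End.mul_apply]
    rcases s.eq_empty_or_nonempty with h | h
    · subst h
      rw [FA_empty, Module.End.one_apply, adL_algebraMap]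
    · rw [ih h, map_zero]

lemma FA_one (e : ℤ → U) (n : ℕ → ℤ) {A : Finset ℕ} (hA : A.Nonempty) :
    FA 𝕜 e A n (1 : U) = 0 := by
  have := FA_algebraMap (𝕜 := 𝕜) e n 1 hA
  simpa using this

lemma FA_mem (e : ℤ → U) (J : Submodule 𝕜 U) (hJ : ∀ (m : ℤ), ∀ u ∈ J, adL 𝕜 (e m) u ∈ J)
    (n : ℕ → ℤ) {u : U} (hu : u ∈ J) (A : Finset ℕ) : FA 𝕜 e A n u ∈ J := by
  induction A using Finset.induction_on_min with
  | empty => simpa [FA_empty] using hu
  | insert a s hs ih =>
    rw [FA_insert e hs, Module.End.mul_apply]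
    exact hJ _ _ ih

lemma adL_e_e {c : 𝕜} {e : ℤ → U} (he : IsVir c e) (m k : ℤ) :
    adL 𝕜 (e m) (e k) = ((m - k : ℤ) : 𝕜) • e (m + k) +
    (if m + k = 0 then algebraMap 𝕜 U (c * ((m : 𝕜) ^ 3 - (m : 𝕜)) / 12) else 0) := by
  rw [adL_apply]; exact he m k

/-- On a single generator, the iterated adjoint action is polynomial in the indices, up to the
dependence on the total index. -/
lemma FA_single {c : 𝕜} {e : ℤ → U} (he : IsVir c e) (m : ℤ) (A : Finset ℕ) :
    ∃ P Q : MvPolynomial ℕ 𝕜, ∀ n : ℕ → ℤ,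
      FA 𝕜 e A n (e m) = (eval (fun k => ((n k : ℤ) : 𝕜)) P) • e (m + ∑ l ∈ A, n l) +
        (eval (fun k => ((n k : ℤ) : 𝕜)) Q) • (if m + ∑ l ∈ A, n l = 0 then (1 : U) else 0) := by
  induction A using Finset.induction_on_min with
  | empty => exact ⟨1, 0, fun n => by simp [FA_empty]⟩
  | insert a s hs ih =>
    have h1 : a ∉ s := fun ha => lt_irrefl _ (hs a ha)
    obtain ⟨P, Q, hPQ⟩ := ih
    refine ⟨P * (X a - C (m : 𝕜) - ∑ l ∈ s, X l), P * (C (c / 12) * (X a ^ 3 - X a)), ?_⟩
    intro n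
    have hz : ∀ z : 𝕜, ∀ p : Prop, [Decidable p] →
        adL 𝕜 (e (n a)) (z • (if p then (1 : U) else 0)) = 0 := by
      intro z p _
      split_ifs
      · rw [map_smul, adL_one, smul_zero]
      · simp
    rw [FA_insert e hs, Module.End.mul_apply, hPQ, map_add, hz, add_zero, map_smul,
      adL_e_e he, Finset.sum_insert h1]
    have e1 : n a + (m + ∑ l ∈ s, n l) = m + (n a + ∑ l ∈ s, n l) := by ring
    rw [e1, smul_add, smul_smul]
    congr 1
    · congr 1
      simp only [map_mul, map_sub, eval_X, eval_C, map_sum]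
      push_cast
      ring
    · split_ifs with h
      · simp only [map_mul, map_sub, eval_X, eval_C, map_pow, Algebra.algebraMap_eq_smul_one,
          smul_smul]
        congr 1
        ring
      · simp

lemma sum_add_single {A : Finset ℕ} {i : ℕ} (hi : i ∈ A) (n : ℕ → ℤ) :
    ∑ l ∈ A, (n + Pi.single i 1 : ℕ → ℤ) l = ∑ l ∈ A, n l + 1 := by
  simp only [Pi.add_apply, Finset.sum_add_distrib]
  congr 1
  simp [Pi.single_apply, hi]

lemma FA_single_mem_Kl {c : 𝕜} {e : ℤ → U} (he : IsVir c e) (m : ℤ) {A : Finset ℕ} {i j : ℕ}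
    (hi : i ∈ A) (hj : j ∈ A) : (fun n => FA 𝕜 e A n (e m)) ∈ Kl 𝕜 U i j := by
  obtain ⟨P, Q, hPQ⟩ := FA_single he m A
  have h1 : (fun n : ℕ → ℤ => e (m + ∑ l ∈ A, n l)) ∈ Kl 𝕜 U i j := by
    apply mem_Kl_of_eq
    intro n
    rw [sum_add_single hi, sum_add_single hj]
  have h2 : (fun n : ℕ → ℤ => (if m + ∑ l ∈ A, n l = 0 then (1 : U) else 0)) ∈ Kl 𝕜 U i j := by
    apply mem_Kl_of_eq
    intro n
    rw [sum_add_single hi, sum_add_single hj]
  have := (Kl 𝕜 U i j).add_mem (poly_smul_mem_Kl P h1) (poly_smul_mem_Kl Q h2)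
  convert this using 1
  funext n
  rw [hPQ]
  rfl

/-- If there are more blocks of hits than factors then the result is a sum of killed families. -/
lemma claimA {c : 𝕜} {e : ℤ → U} (he : IsVir c e) (ms : List ℤ) : ∀ A : Finset ℕ,
    ms.length < (A.image (· / 2)).card →
    (fun n => FA 𝕜 e A n ((ms.map e).prod)) ∈ KK 𝕜 U A := by
  induction ms with
  | nil =>
    intro A hA
    have hne : A.Nonempty := by
      have : 0 < (A.image (· / 2)).card := by simpa using hA
      rw [Finset.card_pos] at this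
      simpa using this
    have : (fun n => FA 𝕜 e A n ((([] : List ℤ).map e).prod)) = 0 := by
      funext n
      simp only [List.map_nil, List.prod_nil]
      exact FA_one e n hne
    rw [this]; exact Submodule.zero_mem _
  | cons m ms ih =>
    intro A hA
    have e1 : (fun n => FA 𝕜 e A n (((m :: ms).map e).prod)) =
        ∑ S ∈ A.powerset, (fun n => FA 𝕜 e S n (e m) * FA 𝕜 e (A \ S) n ((ms.map e).prod)) := by
      funext n
      rw [List.map_cons, List.prod_cons, FA_leibniz, Finset.sum_apply]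
    rw [e1]
    refine Submodule.sum_mem _ ?_
    intro S hS
    have hSA : S ⊆ A := Finset.mem_powerset.1 hS
    by_cases hb : ∃ i ∈ S, ∃ j ∈ S, i / 2 ≠ j / 2
    · obtain ⟨i, hi, j, hj, hij⟩ := hb
      refine Kl_le_KK (hSA hi) (hSA hj) hij ?_
      refine mul_right_mem_Kl (FA_inv e _ ?_) (FA_inv e _ ?_) (FA_single_mem_Kl he m hi hj)
      · simp [hi]
      · simp [hj]
    · push Not at hb
      refine KK_mono (Finset.sdiff_subset : A \ S ⊆ A) ?_
      refine mul_left_mem_KK (fun i hi => FA_inv e _ (Finset.mem_sdiff.1 hi).2) ?_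
      apply ih
      have h1 : (S.image (· / 2)).card ≤ 1 := by
        rw [Finset.card_le_one]
        intro a ha b hb'
        obtain ⟨i, hi, rfl⟩ := Finset.mem_image.1 ha
        obtain ⟨j, hj, rfl⟩ := Finset.mem_image.1 hb'
        exact hb i hi j hj
      have h2 : A.image (· / 2) ⊆ S.image (· / 2) ∪ (A \ S).image (· / 2) := by
        rw [← Finset.image_union]
        apply Finset.image_subset_image
        intro x hx
        by_cases hxs : x ∈ S
        · exact Finset.mem_union_left _ hxs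
        · exact Finset.mem_union_right _ (Finset.mem_sdiff.2 ⟨hx, hxs⟩)
      have h3 := (Finset.card_le_card h2).trans (Finset.card_union_le _ _)
      simp only [List.length_cons] at hA
      omega

end Pool.Agent.Lib.VirSimpleK
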