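import Pool.Agent.Lib.MP_94cd9d_al.K.Hits

/-!
A representation of the Virasoro algebra of arbitrary central charge on a polynomial ring
in variables indexed by the integers, by first-order differential operators.
-/

set_option autoImplicit false
set_option linter.unusedSectionVars false

open MvPolynomial

namespace Pool.Agent.Lib.VirSimpleK

variable {𝕜 : Type*} [Field 𝕜] [CharZero 𝕜]

/-- The derivation part. -/
noncomputable def Dr (𝕜 : Type*) [Field 𝕜] (n : ℤ) : Derivation 𝕜 (MvPolynomial ℤ 𝕜) (MvPolynomial ℤ 𝕜) :=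
  mkDerivation 𝕜 (fun k : ℤ => (-(k : 𝕜)) • (X (n + k) : MvPolynomial ℤ 𝕜) +
    (if n + k = 0 then C ((n : 𝕜) ^ 2 + n) else 0))

lemma Dr_X (n k : ℤ) : Dr 𝕜 n (X k) = (-(k : 𝕜)) • (X (n + k) : MvPolynomial ℤ 𝕜) +
    (if n + k = 0 then C ((n : 𝕜) ^ 2 + n) else 0) := by
  rw [Dr, mkDerivation_X]

lemma Dr_comm (m n : ℤ) : ⁅Dr 𝕜 m, Dr 𝕜 n⁆ = ((m - n : ℤ) : 𝕜) • Dr 𝕜 (m + n) := by
  apply derivation_ext
  intro k
  rw [Derivation.commutator_apply, Derivation.smul_apply, Dr_X, Dr_X, Dr_X]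
  have hz : ∀ (a : ℤ) (z : 𝕜) (p : Prop) [Decidable p],
      Dr 𝕜 a (if p then C z else 0) = 0 := by
    intro a z p _
    split_ifs
    · exact derivation_C _ _
    · exact map_zero _
  rw [map_add (Dr 𝕜 m), map_add (Dr 𝕜 n), hz, hz, add_zero, add_zero, Derivation.map_smul,
    Derivation.map_smul, Dr_X, Dr_X]
  have e1 : m + (n + k) = m + n + k := by ring
  have e2 : n + (m + k) = m + n + k := by ring
  rw [e1, e2]
  by_cases h : m + n + k = 0
  · rw [if_pos h, if_pos h, if_pos h]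
    have hk : (k : 𝕜) = -((m : 𝕜) + n) := by
      have : k = -(m + n) := by omega
      rw [this]; push_cast; ring
    simp only [smul_add, smul_smul, MvPolynomial.smul_eq_C_mul, ← C_mul]
    rw [show (-(k : 𝕜) * ((m : 𝕜) ^ 2 + m)) = (((m : 𝕜) - n) * ((m : 𝕜) + n) ^ 2 +
      ((m : 𝕜) - n) * ((m : 𝕜) + n)) + (-(k : 𝕜) * ((n : 𝕜) ^ 2 + n)) by rw [hk]; ring]
    push_cast
    simp only [C_add, C_mul, C_sub, C_neg, C_pow]
    ring
  · rw [if_neg h, if_neg h, if_neg h]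
    simp only [add_zero, smul_smul]
    rw [← sub_smul]
    congr 1
    push_cast
    ring

/-- The operators. -/
noncomputable def Lop (c : 𝕜) (n : ℤ) : Module.End 𝕜 (MvPolynomial ℤ 𝕜) :=
  (Dr 𝕜 n : MvPolynomial ℤ 𝕜 →ₗ[𝕜] MvPolynomial ℤ 𝕜) +
    LinearMap.mulLeft 𝕜 ((-(c / 24) * ((n : 𝕜) + 1)) • (X n : MvPolynomial ℤ 𝕜))

lemma Lop_apply (c : 𝕜) (n : ℤ) (f : MvPolynomial ℤ 𝕜) :
    Lop c n f = Dr 𝕜 n f + ((-(c / 24) * ((n : 𝕜) + 1)) • (X n : MvPolynomial ℤ 𝕜)) * f := rfl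

lemma Lop_isVir (c : 𝕜) : IsVir c (Lop c) := by
  intro m n
  apply LinearMap.ext
  intro f
  rw [LinearMap.sub_apply, Module.End.mul_apply, Module.End.mul_apply, LinearMap.add_apply,
    LinearMap.smul_apply, Lop_apply, Lop_apply, Lop_apply, Lop_apply, Lop_apply]
  have h1 : Dr 𝕜 m (Dr 𝕜 n f) - Dr 𝕜 n (Dr 𝕜 m f) = ((m - n : ℤ) : 𝕜) • Dr 𝕜 (m + n) f := by
    rw [← Derivation.commutator_apply, Dr_comm]; rfl
  have h2 : (if m + n = 0 then algebraMap 𝕜 (Module.End 𝕜 (MvPolynomial ℤ 𝕜))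
      (c * ((m : 𝕜) ^ 3 - (m : 𝕜)) / 12) else 0) f =
      (if m + n = 0 then C (c * ((m : 𝕜) ^ 3 - (m : 𝕜)) / 12) else 0) * f := by
    split_ifs
    · rw [Module.algebraMap_end_apply, MvPolynomial.smul_eq_C_mul]
    · simp
  rw [h2, map_add (Dr 𝕜 m), map_add (Dr 𝕜 n), Derivation.leibniz, Derivation.leibniz, Derivation.map_smul,
    Derivation.map_smul, Dr_X, Dr_X]
  have e1 : n + m = m + n := by ring
  rw [e1]
  have h3 : Dr 𝕜 m (Dr 𝕜 n f) = Dr 𝕜 n (Dr 𝕜 m f) + ((m - n : ℤ) : 𝕜) • Dr 𝕜 (m + n) f := by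
    rw [← h1]; ring
  rw [h3]
  by_cases h : m + n = 0
  · rw [if_pos h, if_pos h, if_pos h]
    have hn : (n : 𝕜) = -(m : 𝕜) := by
      have : n = -m := by omega
      rw [this]; push_cast; ring
    simp only [smul_eq_mul, MvPolynomial.smul_eq_C_mul]
    push_cast
    rw [hn]
    rw [show c * ((m : 𝕜) ^ 3 - (m : 𝕜)) / 12 = -(c / 24) * (-2 * ((m : 𝕜) ^ 3 - m)) by ring]
    simp only [C_add, C_mul, C_sub, C_neg, C_pow, C_1]
    have : (C 2 : MvPolynomial ℤ 𝕜) = 2 := map_ofNat C 2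
    rw [this]
    ring
  · rw [if_neg h, if_neg h, if_neg h]
    simp only [smul_eq_mul, MvPolynomial.smul_eq_C_mul]
    push_cast
    simp only [C_add, C_mul, C_sub, C_neg, C_pow, C_1]
    ring

end Pool.Agent.Lib.VirSimpleK
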