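import Pool.Agent.Lib.MP_94cd9d_al.K.VirDef
import Pool.Agent.Lib.MP_94cd9d_al.K.Final
import Pool.Agent.Lib.MP_94cd9d_al.K.Rep

/-!
# Simplicity of `U(Vir) / (z - lam)`
-/

set_option autoImplicit false
set_option linter.unusedSectionVars false

namespace Pool.Agent.Lib.VirSimpleK

open MvPolynomial

attribute [local instance 100] LieRing.ofAssociativeRing

variable {𝕜 : Type*} [Field 𝕜] [CharZero 𝕜]

lemma prj_surj (lam : 𝕜) : Function.Surjective (prj lam) := RingCon.mk'_surjective _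

lemma prj_eq_zero {lam : 𝕜} {x : UVir 𝕜} : prj lam x = 0 ↔ x ∈ zIdeal lam := by
  rw [TwoSidedIdeal.mem_iff]
  exact RingCon.eq _

/-- The class in `U(Vir) / (z - lam)` of an element of the Virasoro algebra. -/
noncomputable def toQuot (lam : 𝕜) (x : Vir 𝕜) : VirQuot lam :=
  prj lam (UniversalEnvelopingAlgebra.ι 𝕜 x)

lemma toQuot_eq (lam : 𝕜) (x : Vir 𝕜) :
    toQuot lam x = prj lam (UniversalEnvelopingAlgebra.ι 𝕜 x) := rfl

/-- `toQuot` is linear. -/
noncomputable def toQuotL (lam : 𝕜) : Vir 𝕜 →ₗ[𝕜] VirQuot lam :=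
  (prj lam).toLinearMap ∘ₗ (UniversalEnvelopingAlgebra.ι 𝕜 : Vir 𝕜 →ₗ⁅𝕜⁆ _).toLinearMap

lemma toQuotL_apply (lam : 𝕜) (x : Vir 𝕜) : toQuotL lam x = toQuot lam x := rfl

lemma toQuot_z (lam : 𝕜) : toQuot lam (Vir.z 𝕜) = algebraMap 𝕜 _ lam := by
  have h : prj lam (UniversalEnvelopingAlgebra.ι 𝕜 (Vir.z 𝕜) -
      algebraMap 𝕜 (UVir 𝕜) lam) = 0 :=
    prj_eq_zero.2 (TwoSidedIdeal.subset_span rfl)
  rw [map_sub, sub_eq_zero, AlgHom.commutes] at h
  exact h

lemma toQuot_lie (lam : 𝕜) (x y : Vir 𝕜) :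
    toQuot lam ⁅x, y⁆ = toQuot lam x * toQuot lam y - toQuot lam y * toQuot lam x := by
  rw [toQuot_eq, LieHom.map_lie, LieRing.of_associative_ring_bracket, map_sub, map_mul, map_mul]
  rfl

lemma quot_isVir (lam : 𝕜) : IsVir lam (fun n => toQuot lam (Vir.e 𝕜 n)) := by
  intro m n
  rw [← toQuot_lie, Vir.lie_e_e, ← toQuotL_apply, map_add, map_smul, map_smul, toQuotL_apply,
    toQuotL_apply, toQuot_z]
  congr 1
  · push_cast; rfl
  · split_ifs
    · rw [Algebra.algebraMap_eq_smul_one (A := VirQuot lam) lam,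
        Algebra.algebraMap_eq_smul_one (A := VirQuot lam), smul_smul]
      congr 1
      ring
    · rw [zero_smul]

lemma toQuot_mem_Fil (lam : 𝕜) (x : Vir 𝕜) :
    toQuot lam x ∈ Fil 𝕜 (fun n => toQuot lam (Vir.e 𝕜 n)) 1 := by
  have hx : x = (⟨x.w, 0⟩ : Vir 𝕜) + x.c • Vir.z 𝕜 := by
    ext1 <;> simp [Vir.z]
  rw [hx, ← toQuotL_apply, map_add, map_smul, toQuotL_apply, toQuotL_apply, toQuot_z]
  refine Submodule.add_mem _ ?_ (Submodule.smul_mem _ _ ?_)
  · induction x.w using Finsupp.induction_linear with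
    | zero =>
      have : (⟨0, 0⟩ : Vir 𝕜) = 0 := rfl
      rw [this, ← toQuotL_apply, map_zero]; exact Submodule.zero_mem _
    | add a b ha hb =>
      have : (⟨a + b, 0⟩ : Vir 𝕜) = (⟨a, 0⟩ : Vir 𝕜) + ⟨b, 0⟩ := by ext1 <;> simp
      rw [this, ← toQuotL_apply, map_add]; exact Submodule.add_mem _ ha hb
    | single n a =>
      have : (⟨Finsupp.single n a, 0⟩ : Vir 𝕜) = a • Vir.e 𝕜 n := by
        ext1
        · simp [Vir.e]
        · simp [Vir.e]
      rw [this, ← toQuotL_apply, map_smul]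
      refine Submodule.smul_mem _ _ ?_
      have h2 : toQuotL lam (Vir.e 𝕜 n) =
          (([n] : List ℤ).map (fun n => toQuot lam (Vir.e 𝕜 n))).prod := by
        simp [toQuotL_apply]
      rw [h2]
      exact prod_mem_Fil _ (by simp)
  · rw [Algebra.algebraMap_eq_smul_one (A := VirQuot lam)]
    refine Submodule.smul_mem _ _ ?_
    have : (1 : VirQuot lam) =
        (([] : List ℤ).map (fun n => toQuot lam (Vir.e 𝕜 n))).prod := by simp
    rw [this]
    exact prod_mem_Fil _ (by simp)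

lemma mul_Fil {U : Type*} [Ring U] [Algebra 𝕜 U] (e : ℤ → U) {a b : ℕ} {x y : U}
    (hx : x ∈ Fil 𝕜 e a) (hy : y ∈ Fil 𝕜 e b) : x * y ∈ Fil 𝕜 e (a + b) := by
  unfold Fil at hx
  induction hx using Submodule.span_induction with
  | mem x hx =>
    obtain ⟨ms, h1, rfl⟩ := hx
    unfold Fil at hy
    induction hy using Submodule.span_induction with
    | mem y hy =>
      obtain ⟨ms', h2, rfl⟩ := hy
      have : (ms.map e).prod * (ms'.map e).prod = ((ms ++ ms').map e).prod := by simp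
      rw [this]
      exact prod_mem_Fil e (by simp; omega)
    | zero => simp
    | add x y _ _ hx hy => rw [mul_add]; exact Submodule.add_mem _ hx hy
    | smul a x _ hx => rw [mul_smul_comm]; exact Submodule.smul_mem _ _ hx
  | zero => simp
  | add x y _ _ hx hy => rw [add_mul]; exact Submodule.add_mem _ hx hy
  | smul a x _ hx => rw [smul_mul_assoc]; exact Submodule.smul_mem _ _ hx

lemma quot_generates (lam : 𝕜) (u : VirQuot lam) :
    ∃ d, u ∈ Fil 𝕜 (fun n => toQuot lam (Vir.e 𝕜 n)) d := by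
  obtain ⟨x, rfl⟩ := prj_surj lam u
  have hs : Function.Surjective (UniversalEnvelopingAlgebra.mkAlgHom 𝕜 (Vir 𝕜)) :=
    RingCon.mk'_surjective _
  obtain ⟨t, rfl⟩ := hs x
  induction t using TensorAlgebra.induction with
  | algebraMap r =>
    refine ⟨0, ?_⟩
    rw [AlgHom.commutes, AlgHom.commutes, Algebra.algebraMap_eq_smul_one (A := VirQuot lam)]
    refine Submodule.smul_mem _ _ ?_
    have : (1 : VirQuot lam) =
        (([] : List ℤ).map (fun n => toQuot lam (Vir.e 𝕜 n))).prod := by simp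
    rw [this]
    exact prod_mem_Fil _ (by simp)
  | ι x => exact ⟨1, toQuot_mem_Fil lam x⟩
  | mul a b ha hb =>
    obtain ⟨d, hd⟩ := ha
    obtain ⟨d', hd'⟩ := hb
    exact ⟨d + d', by rw [map_mul, map_mul]; exact mul_Fil _ hd hd'⟩
  | add a b ha hb =>
    obtain ⟨d, hd⟩ := ha
    obtain ⟨d', hd'⟩ := hb
    refine ⟨max d d', ?_⟩
    rw [map_add, map_add]
    exact Submodule.add_mem _ (Fil_mono _ (le_max_left _ _) hd) (Fil_mono _ (le_max_right _ _) hd')

/-- The linear part of the representation of `Vir`. -/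
noncomputable def repW (lam : 𝕜) : (ℤ →₀ 𝕜) →ₗ[𝕜] Module.End 𝕜 (MvPolynomial ℤ 𝕜) :=
  Finsupp.lift _ 𝕜 ℤ (Lop lam)

lemma repW_single (lam : 𝕜) (n : ℤ) (a : 𝕜) :
    repW lam (Finsupp.single n a) = a • Lop lam n := by
  unfold repW
  rw [Finsupp.lift_apply, Finsupp.sum_single_index (by simp)]

lemma repW_comm (lam : 𝕜) (x y : ℤ →₀ 𝕜) :
    repW lam (Vir.witt 𝕜 x y) + (Vir.cocycle 𝕜 x y * lam) • 1 =
      repW lam x * repW lam y - repW lam y * repW lam x := by
  induction x using Finsupp.induction_linear with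
  | zero => simp
  | add x x' hx hx' =>
    simp only [map_add, LinearMap.add_apply, add_mul, add_smul, mul_add]
    rw [show ∀ a b c d : Module.End 𝕜 (MvPolynomial ℤ 𝕜), a + b + (c + d) = (a + c) + (b + d) by
      intros; abel, hx, hx']
    abel
  | single m a =>
    induction y using Finsupp.induction_linear with
    | zero => simp
    | add y y' hy hy' =>
      simp only [map_add, add_mul, add_smul, mul_add]
      rw [show ∀ a b c d : Module.End 𝕜 (MvPolynomial ℤ 𝕜), a + b + (c + d) = (a + c) + (b + d) by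
        intros; abel, hy, hy']
      abel
    | single n b =>
      rw [Vir.witt_single, Vir.cocycle_single, repW_single, repW_single, repW_single]
      have h := Lop_isVir lam m n
      rw [smul_mul_smul_comm, smul_mul_smul_comm, mul_comm b a,
        show (a * b) • (Lop lam m * Lop lam n) - (a * b) • (Lop lam n * Lop lam m) =
          (a * b) • (Lop lam m * Lop lam n - Lop lam n * Lop lam m) from (smul_sub _ _ _).symm,
        h, smul_add, smul_smul]
      congr 1
      · push_cast; rfl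
      · split_ifs
        · rw [Algebra.algebraMap_eq_smul_one, smul_smul]
          congr 1
          ring
        · simp

/-- The representation of `Vir` on polynomials with `z` acting as `lam`. -/
noncomputable def rep (lam : 𝕜) : Vir 𝕜 →ₗ⁅𝕜⁆ Module.End 𝕜 (MvPolynomial ℤ 𝕜) where
  toFun x := repW lam x.w + (x.c * lam) • 1
  map_add' x y := by
    simp only [Vir.w_add, Vir.c_add, map_add, add_mul, add_smul]
    abel
  map_smul' a x := by
    simp only [Vir.w_smul, Vir.c_smul, map_smul, smul_eq_mul, RingHom.id_apply, smul_add, smul_smul,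
      mul_assoc]
  map_lie' := by
    intro x y
    change repW lam (Vir.witt 𝕜 x.w y.w) + (Vir.cocycle 𝕜 x.w y.w * lam) • 1 =
      ⁅repW lam x.w + (x.c * lam) • (1 : Module.End 𝕜 (MvPolynomial ℤ 𝕜)),
        repW lam y.w + (y.c * lam) • (1 : Module.End 𝕜 (MvPolynomial ℤ 𝕜))⁆
    rw [repW_comm, LieRing.of_associative_ring_bracket]
    simp only [add_mul, mul_add, smul_mul_assoc, mul_smul_comm, one_mul, mul_one]
    rw [smul_add, smul_add, smul_smul, smul_smul, mul_comm (y.c * lam) (x.c * lam)]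
    abel

/-- The algebra map `U(Vir) → End`. -/
noncomputable def repU (lam : 𝕜) :
    UVir 𝕜 →ₐ[𝕜] Module.End 𝕜 (MvPolynomial ℤ 𝕜) :=
  UniversalEnvelopingAlgebra.lift 𝕜 (rep lam)

lemma repU_ι (lam : 𝕜) (x : Vir 𝕜) :
    repU lam (UniversalEnvelopingAlgebra.ι 𝕜 x) = repW lam x.w + (x.c * lam) • 1 := by
  unfold repU
  rw [UniversalEnvelopingAlgebra.lift_ι_apply]
  rfl

lemma repU_zero_of_prj {lam : 𝕜} {x : UVir 𝕜}
    (h : prj lam x = 0) : repU lam x = 0 := by
  rw [prj_eq_zero] at h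
  have h1 := TwoSidedIdeal.mem_span_iff.1 h (TwoSidedIdeal.ker (repU lam)) ?_
  · exact (TwoSidedIdeal.mem_ker _).1 h1
  · intro y hy
    rw [Set.mem_singleton_iff] at hy
    subst hy
    change _ ∈ TwoSidedIdeal.ker (repU lam)
    rw [TwoSidedIdeal.mem_ker, map_sub, AlgHom.commutes, repU_ι, Algebra.algebraMap_eq_smul_one]
    simp [Vir.z]

instance quot_nontrivial (lam : 𝕜) : Nontrivial (VirQuot lam) := by
  refine ⟨⟨0, 1, ?_⟩⟩
  intro h
  have h1 : prj lam 1 = 0 := by rw [map_one, ← h]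
  have h2 := repU_zero_of_prj h1
  rw [map_one] at h2
  exact one_ne_zero h2

theorem quot_stable {lam : 𝕜} (hlam : lam ≠ 0) (N : Submodule 𝕜 (VirQuot lam)) (hN : N ≠ ⊥)
    (hs : AdStable lam N) :
    (1 : VirQuot lam) ∈ N := by
  obtain ⟨f, hf, hf0⟩ := (Submodule.ne_bot_iff N).1 hN
  exact one_mem_of_stable hlam (quot_isVir lam) (quot_generates lam) N hs hf hf0

theorem quot_simple {lam : 𝕜} (hlam : lam ≠ 0) : IsSimpleRing (VirQuot lam) := by
  refine ⟨?_⟩
  have : Nontrivial (TwoSidedIdeal (VirQuot lam)) := by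
    refine ⟨⟨⊥, ⊤, ?_⟩⟩
    intro h
    have h1 : (1 : VirQuot lam) ∈ (⊥ : TwoSidedIdeal (VirQuot lam)) := by
      rw [h]; exact TwoSidedIdeal.mem_top _
    rw [TwoSidedIdeal.mem_bot] at h1
    exact one_ne_zero h1
  refine ⟨?_⟩
  intro J
  by_cases hJ : J = ⊥
  · exact Or.inl hJ
  · right
    let J' : Submodule 𝕜 (VirQuot lam) :=
      { carrier := {x | x ∈ J}
        add_mem' := fun ha hb => J.add_mem ha hb
        zero_mem' := J.zero_mem
        smul_mem' := by
          intro z x hx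
          change z • x ∈ J
          rw [Algebra.smul_def]
          exact J.mul_mem_left _ _ hx }
    have hJ' : J' ≠ ⊥ := by
      intro h
      apply hJ
      rw [eq_bot_iff]
      intro x hx
      have : x ∈ J' := hx
      rw [h, Submodule.mem_bot] at this
      rw [this]
      exact TwoSidedIdeal.zero_mem _
    have h1 : (1 : VirQuot lam) ∈ J' := by
      refine quot_stable hlam J' hJ' ?_
      intro n u hu
      exact J.sub_mem (J.mul_mem_left _ _ hu) (J.mul_mem_right _ _ hu)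
    exact (TwoSidedIdeal.one_mem_iff J).1 h1

/-- The augmentation of `U(Vir)`. -/
noncomputable def aug : UVir 𝕜 →ₐ[𝕜] 𝕜 :=
  UniversalEnvelopingAlgebra.lift 𝕜 (0 : Vir 𝕜 →ₗ⁅𝕜⁆ 𝕜)

lemma toQuot_e_one_ne_zero : toQuot (0 : 𝕜) (Vir.e 𝕜 1) ≠ 0 := by
  intro h
  have h1 := repU_zero_of_prj (lam := (0 : 𝕜)) (x := UniversalEnvelopingAlgebra.ι 𝕜 (Vir.e 𝕜 1)) h
  rw [repU_ι] at h1
  have h2 := congrArg (fun T : Module.End 𝕜 (MvPolynomial ℤ 𝕜) => T (X 1)) h1
  simp only [Vir.e, repW_single, one_smul, zero_mul, zero_smul, add_zero, Lop_apply,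
    LinearMap.zero_apply, Dr_X] at h2
  have h3 := congrArg (coeff (Finsupp.single (2 : ℤ) 1)) h2
  simp at h3

theorem quot_zero_not_simple : ¬ IsSimpleRing (VirQuot (0 : 𝕜)) := by
  intro hsimp
  have hker : ∀ x, prj (0 : 𝕜) x = 0 → aug x = 0 := by
    intro x hx
    rw [prj_eq_zero] at hx
    have h1 := TwoSidedIdeal.mem_span_iff.1 hx (TwoSidedIdeal.ker (aug (𝕜 := 𝕜))) ?_
    · exact (TwoSidedIdeal.mem_ker _).1 h1
    · intro y hy
      rw [Set.mem_singleton_iff] at hy
      subst hy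
      change _ ∈ TwoSidedIdeal.ker (aug (𝕜 := 𝕜))
      rw [TwoSidedIdeal.mem_ker, map_sub, map_zero, map_zero, sub_zero]
      unfold aug
      rw [UniversalEnvelopingAlgebra.lift_ι_apply]
      rfl
  let q : VirQuot (0 : 𝕜) →+* 𝕜 := RingCon.lift _ (aug (𝕜 := 𝕜)).toRingHom (by
    intro x y hxy
    have h1 : prj (0 : 𝕜) x = prj (0 : 𝕜) y := (RingCon.eq _).2 hxy
    have h2 : aug (x - y) = 0 := hker _ (by rw [map_sub, h1, sub_self])
    rw [map_sub, sub_eq_zero] at h2
    exact h2)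
  have hinj : Function.Injective q := RingHom.injective q
  apply toQuot_e_one_ne_zero (𝕜 := 𝕜)
  apply hinj
  refine Eq.trans ?_ (map_zero q).symm
  change aug (UniversalEnvelopingAlgebra.ι 𝕜 (Vir.e 𝕜 1)) = 0
  unfold aug
  rw [UniversalEnvelopingAlgebra.lift_ι_apply]
  rfl

end Pool.Agent.Lib.VirSimpleK
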