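import Mathlib

/-!
# The Virasoro algebra over a field of characteristic zero

The Lie algebra with basis `e n` (`n ∈ ℤ`) and `z`, and the quotient of its universal enveloping
algebra by the two-sided ideal generated by `z - lam`.
-/

set_option autoImplicit false

namespace Pool.Agent.Lib.VirSimpleK

variable (𝕜 : Type*) [Field 𝕜]

/-- The underlying vector space of the Virasoro algebra: `⟨w, c⟩` stands for the combination
`∑ n, w n • e n + c • z`, so that `e n` (`n ∈ ℤ`) and `z` form a basis. -/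
@[ext] structure Vir where
  /-- the coefficients of the `e n` -/
  w : ℤ →₀ 𝕜
  /-- the coefficient of `z` -/
  c : 𝕜

namespace Vir

/-- The coordinates. -/
def equiv : Vir 𝕜 ≃ (ℤ →₀ 𝕜) × 𝕜 where
  toFun x := (x.w, x.c)
  invFun p := ⟨p.1, p.2⟩
  left_inv _ := rfl
  right_inv _ := rfl

noncomputable instance : AddCommGroup (Vir 𝕜) := (equiv 𝕜).addCommGroup
noncomputable instance : Module 𝕜 (Vir 𝕜) := (equiv 𝕜).module 𝕜

/-- The basis element `e n`. -/
noncomputable def e (n : ℤ) : Vir 𝕜 := ⟨Finsupp.single n 1, 0⟩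

/-- The central basis element `z`. -/
def z : Vir 𝕜 := ⟨0, 1⟩

/-- The bilinear map with `(e m, e n) ↦ (m - n) e (m + n)`. -/
noncomputable def witt : (ℤ →₀ 𝕜) →ₗ[𝕜] (ℤ →₀ 𝕜) →ₗ[𝕜] (ℤ →₀ 𝕜) :=
  Finsupp.lift _ 𝕜 ℤ fun m => Finsupp.lift _ 𝕜 ℤ fun n =>
    Finsupp.single (m + n) ((m : 𝕜) - (n : 𝕜))

/-- The bilinear form with `(e m, e n) ↦ δ_{m+n,0} (m ^ 3 - m) / 12`. -/
noncomputable def cocycle : (ℤ →₀ 𝕜) →ₗ[𝕜] (ℤ →₀ 𝕜) →ₗ[𝕜] 𝕜 :=
  Finsupp.lift _ 𝕜 ℤ fun m => Finsupp.lift _ 𝕜 ℤ fun n =>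
    if m + n = 0 then ((m : 𝕜) ^ 3 - (m : 𝕜)) / 12 else 0

variable {𝕜}

lemma witt_single (m n : ℤ) (a b : 𝕜) :
    witt 𝕜 (Finsupp.single m a) (Finsupp.single n b) =
      Finsupp.single (m + n) (a * b * ((m : 𝕜) - (n : 𝕜))) := by
  unfold witt
  rw [Finsupp.lift_apply, Finsupp.sum_single_index (by simp), LinearMap.smul_apply,
    Finsupp.lift_apply, Finsupp.sum_single_index (by simp), smul_smul, Finsupp.smul_single,
    smul_eq_mul]

lemma cocycle_single (m n : ℤ) (a b : 𝕜) :
    cocycle 𝕜 (Finsupp.single m a) (Finsupp.single n b) =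
      if m + n = 0 then a * b * (((m : 𝕜) ^ 3 - (m : 𝕜)) / 12) else 0 := by
  simp [cocycle, mul_assoc]

lemma witt_skew (x y : ℤ →₀ 𝕜) : witt 𝕜 x y = - witt 𝕜 y x := by
  induction x using Finsupp.induction_linear with
  | zero => simp
  | add x x' hx hx' => rw [map_add, map_add, LinearMap.add_apply, hx, hx', neg_add]
  | single m a =>
    induction y using Finsupp.induction_linear with
    | zero => simp
    | add y y' hy hy' => rw [map_add, map_add, LinearMap.add_apply, hy, hy', neg_add]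
    | single n b =>
      rw [witt_single, witt_single, ← Finsupp.single_neg, add_comm n m]
      congr 1; ring

lemma cocycle_skew (x y : ℤ →₀ 𝕜) : cocycle 𝕜 x y = - cocycle 𝕜 y x := by
  induction x using Finsupp.induction_linear with
  | zero => simp
  | add x x' hx hx' => rw [map_add, map_add, LinearMap.add_apply, hx, hx', neg_add]
  | single m a =>
    induction y using Finsupp.induction_linear with
    | zero => simp
    | add y y' hy hy' => rw [map_add, map_add, LinearMap.add_apply, hy, hy', neg_add]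
    | single n b =>
      rw [cocycle_single, cocycle_single, add_comm n m]
      split_ifs with h
      · have hn : (n : 𝕜) = -(m : 𝕜) := by
          have : n = -m := by omega
          rw [this]; push_cast; ring
        rw [hn]; ring
      · simp

lemma witt_jacobi (x y t : ℤ →₀ 𝕜) :
    witt 𝕜 x (witt 𝕜 y t) = witt 𝕜 (witt 𝕜 x y) t + witt 𝕜 y (witt 𝕜 x t) := by
  induction x using Finsupp.induction_linear with
  | zero => simp
  | add x x' hx hx' => simp only [map_add, LinearMap.add_apply, hx, hx']; abel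
  | single m a =>
    induction y using Finsupp.induction_linear with
    | zero => simp
    | add y y' hy hy' => simp only [map_add, LinearMap.add_apply, hy, hy']; abel
    | single n b =>
      induction t using Finsupp.induction_linear with
      | zero => simp
      | add t t' ht ht' => simp only [map_add, ht, ht']; abel
      | single r c =>
        simp only [witt_single]
        rw [show n + (m + r) = m + (n + r) by ring, show m + n + r = m + (n + r) by ring,
          ← Finsupp.single_add]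
        congr 1
        push_cast
        ring

lemma cocycle_jacobi (x y t : ℤ →₀ 𝕜) :
    cocycle 𝕜 x (witt 𝕜 y t) = cocycle 𝕜 (witt 𝕜 x y) t + cocycle 𝕜 y (witt 𝕜 x t) := by
  induction x using Finsupp.induction_linear with
  | zero => simp
  | add x x' hx hx' => simp only [map_add, LinearMap.add_apply, hx, hx']; abel
  | single m a =>
    induction y using Finsupp.induction_linear with
    | zero => simp
    | add y y' hy hy' => simp only [map_add, LinearMap.add_apply, hy, hy']; abel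
    | single n b =>
      induction t using Finsupp.induction_linear with
      | zero => simp
      | add t t' ht ht' => simp only [map_add, ht, ht']; abel
      | single r c =>
        simp only [witt_single, cocycle_single]
        rw [show n + (m + r) = m + (n + r) by ring, show m + n + r = m + (n + r) by ring]
        split_ifs with h
        · have hr : (r : 𝕜) = -(m : 𝕜) - (n : 𝕜) := by
            have : r = -m - n := by omega
            rw [this]; push_cast; ring
          rw [hr]; push_cast; ring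
        · simp

@[simp] lemma w_add (x y : Vir 𝕜) : (x + y).w = x.w + y.w := rfl
@[simp] lemma c_add (x y : Vir 𝕜) : (x + y).c = x.c + y.c := rfl
@[simp] lemma w_zero : (0 : Vir 𝕜).w = 0 := rfl
@[simp] lemma c_zero : (0 : Vir 𝕜).c = 0 := rfl
@[simp] lemma w_smul (a : 𝕜) (x : Vir 𝕜) : (a • x).w = a • x.w := rfl
@[simp] lemma c_smul (a : 𝕜) (x : Vir 𝕜) : (a • x).c = a • x.c := rfl

/-- The bracket of the Virasoro algebra:
`⁅e m, e n⁆ = (m - n) e (m + n) + δ_{m+n,0} (m ^ 3 - m) / 12 z` and `⁅z, x⁆ = 0`. -/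
noncomputable instance : Bracket (Vir 𝕜) (Vir 𝕜) :=
  ⟨fun x y => ⟨witt 𝕜 x.w y.w, cocycle 𝕜 x.w y.w⟩⟩

@[simp] lemma w_lie (x y : Vir 𝕜) : (⁅x, y⁆ : Vir 𝕜).w = witt 𝕜 x.w y.w := rfl
@[simp] lemma c_lie (x y : Vir 𝕜) : (⁅x, y⁆ : Vir 𝕜).c = cocycle 𝕜 x.w y.w := rfl

variable [CharZero 𝕜]

omit [CharZero 𝕜] in
lemma add_lie' (x y t : Vir 𝕜) : ⁅x + y, t⁆ = ⁅x, t⁆ + ⁅y, t⁆ := by ext1 <;> simp

omit [CharZero 𝕜] in
lemma lie_add' (x y t : Vir 𝕜) : ⁅x, y + t⁆ = ⁅x, y⁆ + ⁅x, t⁆ := by ext1 <;> simp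

lemma lie_self' (x : Vir 𝕜) : ⁅x, x⁆ = 0 := by
  ext1
  · exact self_eq_neg.1 (witt_skew x.w x.w)
  · exact self_eq_neg.1 (cocycle_skew x.w x.w)

omit [CharZero 𝕜] in
lemma leibniz_lie' (x y t : Vir 𝕜) : ⁅x, ⁅y, t⁆⁆ = ⁅⁅x, y⁆, t⁆ + ⁅y, ⁅x, t⁆⁆ := by
  ext1
  · exact witt_jacobi _ _ _
  · exact cocycle_jacobi _ _ _

omit [CharZero 𝕜] in
lemma lie_smul' (a : 𝕜) (x y : Vir 𝕜) : ⁅x, a • y⁆ = a • ⁅x, y⁆ := by ext1 <;> simp

noncomputable instance : LieRing (Vir 𝕜) where
  add_lie := add_lie'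
  lie_add := lie_add'
  lie_self := lie_self'
  leibniz_lie := leibniz_lie'

noncomputable instance : LieAlgebra 𝕜 (Vir 𝕜) where
  lie_smul := lie_smul'

omit [CharZero 𝕜] in
lemma lie_e_e (m n : ℤ) : (⁅e 𝕜 m, e 𝕜 n⁆ : Vir 𝕜) =
    ((m : 𝕜) - (n : 𝕜)) • e 𝕜 (m + n) +
      (if m + n = 0 then ((m : 𝕜) ^ 3 - (m : 𝕜)) / 12 else 0) • z 𝕜 := by
  ext1
  · simp only [w_lie, e, witt_single, w_add, w_smul, z, smul_zero, add_zero, Finsupp.smul_single,
      smul_eq_mul, one_mul, mul_one]
  · simp only [c_lie, e, cocycle_single, c_add, c_smul, z, mul_zero, zero_add, smul_eq_mul,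
      one_mul, mul_one]

omit [CharZero 𝕜] in
lemma lie_z (x : Vir 𝕜) : (⁅z 𝕜, x⁆ : Vir 𝕜) = 0 := by
  ext1 <;> simp [z]

end Vir

section quot

variable (𝕜 : Type*) [Field 𝕜] [CharZero 𝕜]

/-- The universal enveloping algebra of the Virasoro algebra. -/
abbrev UVir : Type _ := UniversalEnvelopingAlgebra 𝕜 (Vir 𝕜)

variable {𝕜}

/-- The two-sided ideal of `U(Vir)` generated by `z - lam`. -/
noncomputable def zIdeal (lam : 𝕜) : TwoSidedIdeal (UVir 𝕜) :=
  TwoSidedIdeal.span {UniversalEnvelopingAlgebra.ι 𝕜 (Vir.z 𝕜) - algebraMap 𝕜 (UVir 𝕜) lam}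

/-- The quotient `U(Vir) / (z - lam)` of the universal enveloping algebra of the Virasoro algebra
by the two-sided ideal generated by `z - lam`. -/
def VirQuot (lam : 𝕜) : Type _ := (zIdeal lam).ringCon.Quotient

noncomputable instance (lam : 𝕜) : Ring (VirQuot lam) := RingCon.instRingQuotient (zIdeal lam).ringCon

noncomputable instance (lam : 𝕜) : Algebra 𝕜 (VirQuot lam) :=
  RingCon.instAlgebraQuotient (zIdeal lam).ringCon

/-- The projection `U(Vir) → U(Vir) / (z - lam)`. -/
noncomputable def prj (lam : 𝕜) : UVir 𝕜 →ₐ[𝕜] VirQuot lam := RingCon.mkₐ 𝕜 (zIdeal lam).ringCon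

/-- The class of `e n` in `U(Vir) / (z - lam)`. -/
noncomputable def eQ (lam : 𝕜) (n : ℤ) : VirQuot lam :=
  prj lam (UniversalEnvelopingAlgebra.ι 𝕜 (Vir.e 𝕜 n))

/-- The subspace `N` of `U(Vir) / (z - lam)` is stable under the adjoint action of all `e n`. -/
def AdStable (lam : 𝕜) (N : Submodule 𝕜 (VirQuot lam)) : Prop :=
  ∀ n : ℤ, ∀ u ∈ N, eQ lam n * u - u * eQ lam n ∈ N

end quot

end Pool.Agent.Lib.VirSimpleK
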